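import Mathlib

/-! Job 4109 (NW-1): the rounding sum over one period of an almost rational rotation. -/

namespace Pool.Agent.TH574.NW

open Finset

/-- `∑_{s<P} (N+s)/P = N` over the integers. -/
theorem sum_ediv (P : ℕ) (hP : 1 ≤ P) (N : ℤ) :
    ∑ s ∈ range P, (N + (s : ℤ)) / (P : ℤ) = N := by
  have hP' : (P : ℤ) ≠ 0 := by positivity
  -- shift invariance
  have hstep : ∀ M : ℤ, ∑ s ∈ range P, (M + 1 + (s : ℤ)) / (P : ℤ)
      = ∑ s ∈ range P, (M + (s : ℤ)) / (P : ℤ) + 1 := by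
    intro M
    have h1 := Finset.sum_range_succ (fun s : ℕ => (M + (s : ℤ)) / (P : ℤ)) P
    have h2 := Finset.sum_range_succ' (fun s : ℕ => (M + (s : ℤ)) / (P : ℤ)) P
    have h3 : (M + (P : ℤ)) / (P : ℤ) = M / (P : ℤ) + 1 := by
      rw [Int.add_ediv_of_dvd_right (dvd_refl _), Int.ediv_self hP']
    have h4 : ∑ s ∈ range P, (M + 1 + (s : ℤ)) / (P : ℤ)
        = ∑ s ∈ range P, (M + ((s + 1 : ℕ) : ℤ)) / (P : ℤ) := by
      refine Finset.sum_congr rfl fun s _ => ?_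
      congr 1
      push_cast
      ring
    simp only [Nat.cast_zero, add_zero] at h2
    rw [h4]
    rw [h1] at h2
    rw [h3] at h2
    linarith
  have hzero : ∑ s ∈ range P, ((0 : ℤ) + (s : ℤ)) / (P : ℤ) = 0 := by
    refine Finset.sum_eq_zero fun s hs => ?_
    rw [zero_add]
    exact Int.ediv_eq_zero_of_lt (by positivity) (by exact_mod_cast Finset.mem_range.mp hs)
  induction N using Int.induction_on with
  | zero => exact hzero
  | succ n ih => rw [hstep, ih]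
  | pred n ih =>
    have := hstep (-(n : ℤ) - 1)
    rw [show (-(n : ℤ) - 1 + 1) = -(n : ℤ) by ring] at this
    rw [ih] at this
    linarith

/-- Hermite's identity. -/
theorem sum_floor_hermite (P : ℕ) (hP : 1 ≤ P) (x : ℝ) :
    ∑ s ∈ range P, ⌊x + (s : ℝ) / P⌋ = ⌊(P : ℝ) * x⌋ := by
  have hP0 : (P : ℝ) ≠ 0 := by positivity
  rw [← sum_ediv P hP ⌊(P : ℝ) * x⌋]
  refine Finset.sum_congr rfl fun s _ => ?_
  have : x + (s : ℝ) / P = ((P : ℝ) * x + (s : ℝ)) / (P : ℕ) := by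
    field_simp
  rw [this, Int.floor_div_natCast]
  rw [Int.floor_add_natCast]

theorem sum_floor_rot {P A0 : ℕ} (hP : 1 ≤ P) {δ : ℝ} (hδ0 : 0 ≤ δ) (hδ : δ * P ^ 2 ≤ 1) (x : ℝ) :
    |∑ s ∈ range P, ((⌊x + ((A0 : ℝ) + 1 / P + δ) * s⌋ : ℝ)
      - (x + ((A0 : ℝ) + 1 / P + δ) * s) + 1 / 2)| ≤ 2 := by
  have hP1 : (1 : ℝ) ≤ P := by exact_mod_cast hP
  have hPpos : (0 : ℝ) < P := by linarith
  -- the sum of the floors
  have hfl : ∀ s ∈ range P, (⌊x + ((A0 : ℝ) + 1 / P + δ) * s⌋ : ℝ)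
      = (A0 : ℝ) * s + (⌊x + (s : ℝ) / P + δ * s⌋ : ℝ) := by
    intro s _
    have e : x + ((A0 : ℝ) + 1 / P + δ) * s = (x + (s : ℝ) / P + δ * s) + ((A0 * s : ℕ) : ℝ) := by
      push_cast
      ring
    rw [e, Int.floor_add_natCast]
    push_cast
    ring
  have hlow : ∀ s ∈ range P, (⌊x + (s : ℝ) / P⌋ : ℝ) ≤ (⌊x + (s : ℝ) / P + δ * s⌋ : ℝ) := by
    intro s _
    have : 0 ≤ δ * s := by positivity
    exact_mod_cast Int.floor_le_floor (by linarith)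
  have hup : ∀ s ∈ range P, (⌊x + (s : ℝ) / P + δ * s⌋ : ℝ) ≤ (⌊(x + 1 / P) + (s : ℝ) / P⌋ : ℝ) := by
    intro s hs
    have hsP : (s : ℝ) ≤ P := by exact_mod_cast (Finset.mem_range.mp hs).le
    have h1 : δ * s ≤ 1 / P := by
      rw [le_div_iff₀ hPpos]
      calc δ * s * P ≤ δ * P * P := by gcongr
        _ = δ * P ^ 2 := by ring
        _ ≤ 1 := hδ
    exact_mod_cast Int.floor_le_floor (by linarith)
  have hH1 : ∑ s ∈ range P, (⌊x + (s : ℝ) / P⌋ : ℝ) = (⌊(P : ℝ) * x⌋ : ℝ) := by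
    exact_mod_cast sum_floor_hermite P hP x
  have hH2 : ∑ s ∈ range P, (⌊(x + 1 / P) + (s : ℝ) / P⌋ : ℝ) = (⌊(P : ℝ) * x⌋ : ℝ) + 1 := by
    have h := sum_floor_hermite P hP (x + 1 / P)
    have e : (P : ℝ) * (x + 1 / P) = (P : ℝ) * x + 1 := by field_simp
    rw [e, Int.floor_add_one] at h
    exact_mod_cast h
  -- the two bounds for the sum of floors
  set F : ℝ := ∑ s ∈ range P, (⌊x + (s : ℝ) / P + δ * s⌋ : ℝ) with hF
  have hF1 : (⌊(P : ℝ) * x⌋ : ℝ) ≤ F := by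
    rw [← hH1]; exact Finset.sum_le_sum hlow
  have hF2 : F ≤ (⌊(P : ℝ) * x⌋ : ℝ) + 1 := by
    rw [← hH2]; exact Finset.sum_le_sum hup
  -- the sum of s
  have hG : ∑ s ∈ range P, (s : ℝ) = (P : ℝ) * ((P : ℝ) - 1) / 2 := by
    have := Finset.sum_range_id_mul_two P
    have h2 : (∑ s ∈ range P, (s : ℝ)) * 2 = (P : ℝ) * ((P : ℝ) - 1) := by
      have h3 : ((∑ s ∈ range P, s : ℕ) : ℝ) * 2 = ((P * (P - 1) : ℕ) : ℝ) := by
        exact_mod_cast this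
      rw [Nat.cast_mul, Nat.cast_sub hP] at h3
      push_cast at h3
      exact h3
    linarith
  have hsum : ∑ s ∈ range P, ((⌊x + ((A0 : ℝ) + 1 / P + δ) * s⌋ : ℝ)
      - (x + ((A0 : ℝ) + 1 / P + δ) * s) + 1 / 2)
      = F - (P * x) - ((P : ℝ) - 1) / 2 - δ * ((P : ℝ) * ((P : ℝ) - 1) / 2) + P / 2 := by
    have h1 : ∑ s ∈ range P, ((⌊x + ((A0 : ℝ) + 1 / P + δ) * s⌋ : ℝ)
      - (x + ((A0 : ℝ) + 1 / P + δ) * s) + 1 / 2)
      = ∑ s ∈ range P, ((⌊x + (s : ℝ) / P + δ * s⌋ : ℝ) + (-x + 1 / 2)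
          - (1 / P + δ) * (s : ℝ)) := by
      refine Finset.sum_congr rfl fun s hs => ?_
      rw [hfl s hs]
      ring
    rw [h1, Finset.sum_sub_distrib, Finset.sum_add_distrib, ← Finset.mul_sum, hG, ← hF]
    simp only [Finset.sum_const, Finset.card_range, nsmul_eq_mul]
    field_simp
    ring
  rw [hsum]
  have hx1 : (⌊(P : ℝ) * x⌋ : ℝ) ≤ (P : ℝ) * x := Int.floor_le _
  have hx2 : (P : ℝ) * x < (⌊(P : ℝ) * x⌋ : ℝ) + 1 := Int.lt_floor_add_one _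
  have hd1 : 0 ≤ δ * ((P : ℝ) * ((P : ℝ) - 1) / 2) := by
    have : 0 ≤ (P : ℝ) - 1 := by linarith
    positivity
  have hd2 : δ * ((P : ℝ) * ((P : ℝ) - 1) / 2) ≤ 1 / 2 := by
    have h1 : (P : ℝ) * ((P : ℝ) - 1) ≤ (P : ℝ) ^ 2 := by nlinarith
    have h2 : δ * ((P : ℝ) * ((P : ℝ) - 1)) ≤ δ * (P : ℝ) ^ 2 :=
      mul_le_mul_of_nonneg_left h1 hδ0
    have h3 : δ * ((P : ℝ) * ((P : ℝ) - 1) / 2) = δ * ((P : ℝ) * ((P : ℝ) - 1)) / 2 := by ring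
    rw [h3]
    linarith
  rw [abs_le]
  constructor <;> linarith

end Pool.Agent.TH574.NW
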